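import Pool.Agent.MP_fc94d9_co.RealB
import Pool.Agent.MP_fc94d9_co.RealC

set_option autoImplicit false

namespace Pool.Agent.Results.MP_fc94d9_co.AllLargeDistances

open Pool.Agent.MP_fc94d9_co.Ms in
/-- Every finite colouring of the plane has monochromatic pairs at all large distances. -/
theorem result (k : ℕ) (c : EuclideanSpace ℝ (Fin 2) → Fin k) :
    ∃ R : ℝ, ∀ d : ℝ, R ≤ d → ∃ x y : EuclideanSpace ℝ (Fin 2), dist x y = d ∧ c x = c y := by
  let P := Complex.orthonormalBasisOneI.repr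
  obtain ⟨R, h⟩ := mono_real kBig (kMeas sAvg) (kHerg sAvg) kCont' fun z => c (P z)
  refine ⟨R, fun d hd => ?_⟩
  obtain ⟨x, y, h1, h2⟩ := h d hd
  exact ⟨P x, P y, by rwa [P.dist_map], h2⟩

end Pool.Agent.Results.MP_fc94d9_co.AllLargeDistances
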