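import Pool.Agent.MP_fc94d9_co.RealB
import Pool.Agent.MP_fc94d9_co.RealC
import Pool.Agent.MP_fc94d9_co.RealD

set_option autoImplicit false

namespace Pool.Agent.Results.MP_fc94d9_co.MeasurableColouring

open Pool.Agent.MP_fc94d9_co.Ms in
/-- A finite colouring of the plane that avoids a set of distances can be replaced by a Lebesgue
measurable one with the same number of colours. -/
theorem result (A : Set ℝ) (k : ℕ) (c : EuclideanSpace ℝ (Fin 2) → Fin k)
    (hc : ∀ x y, x ≠ y → dist x y ∈ A → c x ≠ c y) :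
    ∃ c' : EuclideanSpace ℝ (Fin 2) → Fin k,
      (∀ j, MeasureTheory.NullMeasurableSet (c' ⁻¹' {j}) MeasureTheory.volume) ∧
        ∀ x y, x ≠ y → dist x y ∈ A → c' x ≠ c' y := by
  let P := Complex.orthonormalBasisOneI.repr
  obtain ⟨c', h1, h2⟩ := main_real kBig (kMeas sAvg) (kHerg sAvg) kCont' kApx sLim sLift A k
    (fun z => c (P z)) fun x y hxy hd =>
      hc _ _ (fun e => hxy (P.injective e)) (by rwa [P.dist_map])
  exact ⟨fun x => c' (P.symm x), fun j =>
    (h1 j).preimage P.symm.measurePreserving.quasiMeasurePreserving, fun x y hxy hd =>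
      h2 _ _ (fun e => hxy (P.symm.injective e)) (by rwa [P.symm.dist_map])⟩

end Pool.Agent.Results.MP_fc94d9_co.MeasurableColouring
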